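import Pool.Agent.Q23.AQ.It

/-!
# `e^q` and periods, for almost all rational numbers `q`

For all but few rational numbers `q` of `[a, b]` (and for all but few `n`-tuples of them simultaneously) the numbers
`e^q`, `e^(e^q)`, …, together with the periods `π`, `log (q + x_i)`, `K(s)`, `E(s)`, `K(1 - s)` for
`s = (q - α_j) / (γ_j - α_j)` (periods for rational `x_i`, `α_j`, `γ_j`), satisfy no polynomial relation, not even an
approximate one, of given degree and polynomially bounded height. In particular, for almost all `q` the number `e^q` is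
not a polynomial of bounded degree and height in these periods.
-/

set_option autoImplicit false

open Set Filter Topology

namespace Pool.Agent.Results.MP_2cf66e_nt.ExponentialsOverPeriods

/-- The complete elliptic integral of the first kind, `K(s) = ∫_0^{π/2} (1 - s sin²θ)^(-1/2) dθ`. -/
noncomputable def K (s : ℝ) : ℝ := ∫ θ in (0 : ℝ)..(Real.pi / 2), 1 / √(1 - s * Real.sin θ ^ 2)

/-- The complete elliptic integral of the second kind, `E(s) = ∫_0^{π/2} (1 - s sin²θ)^(1/2) dθ`. -/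
noncomputable def E (s : ℝ) : ℝ := ∫ θ in (0 : ℝ)..(Real.pi / 2), √(1 - s * Real.sin θ ^ 2)

/-- Iterated exponential: `iexp 0 t = t`, `iexp (k + 1) t = e ^ (iexp k t)`. -/
noncomputable def iexp : ℕ → ℝ → ℝ
  | 0, t => t
  | k + 1, t => Real.exp (iexp k t)

/-- The `(3 N + r + k) n + 1` numbers `π` and, for `l < n`: `K(s)`, `E(s)`, `K(1 - s)` for
`s = (q_l - α_j) / (γ_j - α_j)`, `j < N`; `iexp i (q_l)`, `1 ≤ i ≤ r`; `log (q_l + x_i)`, `i < k`. -/
noncomputable def values {N r k n : ℕ} (α γ : Fin N → ℝ) (x : Fin k → ℝ) (q : Fin n → ℚ)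
    (z : Option (Fin n × ((Fin N × Fin 3) ⊕ (Fin r ⊕ Fin k)))) : ℝ :=
  match z with
  | none => Real.pi
  | some (l, Sum.inl (j, i)) => ![K ((q l - α j) / (γ j - α j)), E ((q l - α j) / (γ j - α j)),
      K (1 - (q l - α j) / (γ j - α j))] i
  | some (l, Sum.inr (Sum.inl i)) => iexp (i + 1) (q l)
  | some (l, Sum.inr (Sum.inr i)) => Real.log (q l + x i)

/-- The `n`-tuples `q` of rational numbers in `[a, b]` with denominators at most `T` for which some nonzero polynomial
in `(3 N + r + k) n + 1` variables with integer coefficients of absolute value at most `T ^ A`, of degree at most `d` in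
each variable, takes at the numbers `values` a value of absolute value at most `T ^ (-B)`. -/
def Exceptional {N k : ℕ} (n d r : ℕ) (α γ : Fin N → ℝ) (x : Fin k → ℝ) (a b A B T : ℝ) : Set (Fin n → ℚ) :=
  {q | (∀ l, a ≤ q l ∧ q l ≤ b ∧ ((q l).den : ℝ) ≤ T) ∧
    ∃ P : MvPolynomial (Option (Fin n × ((Fin N × Fin 3) ⊕ (Fin r ⊕ Fin k)))) ℤ, P ≠ 0 ∧
      (∀ z, P.degreeOf z ≤ d) ∧ (∀ s, |((P.coeff s : ℤ) : ℝ)| ≤ T ^ A) ∧
      |MvPolynomial.aeval (values α γ x q) P| ≤ T ^ (-B)}

theorem iexp_eq (k : ℕ) (t : ℝ) : iexp k t = Q23.AQ.It.E k t := by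
  induction k with
  | zero => rfl
  | succ k ih =>
    show Real.exp (iexp k t) = Real.exp (Q23.AQ.It.E k t)
    rw [ih]

/-- Let `α_1 > ⋯ > α_N > c`, `γ_1 < ⋯ < γ_N`, `x_1, …, x_k` distinct with `c + x_i > 0`, and `c ≤ a < b` with
`α_1 < a`, `b < γ_1`. For `n ≥ 1`, `d`, `r`, `A ≥ 0` and `β > 2 - 2 / ((d + 1) ^ ((3 N + r + k) n + 1) + 1)` there are
`B` and `C` such that for all `T ≥ 1` there are at most `C T ^ (2 (n - 1) + β)` exceptional `n`-tuples (whereas the number
of all `n`-tuples of rational numbers in `[a, b]` with denominators at most `T` is about `T ^ (2 n)`). -/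
theorem result {N k : ℕ} (n d r : ℕ) (hn : 1 ≤ n) (α γ : Fin N → ℝ) (x : Fin k → ℝ) (hα : StrictAnti α)
    (hγ : StrictMono γ) (hx : Function.Injective x) (c : ℝ) (hcα : ∀ j, c < α j)
    (hcx : ∀ i, 0 < c + x i) (a b : ℝ) (hab : a < b) (hca : c ≤ a) (h : ∀ j, α j < a ∧ b < γ j)
    (A β : ℝ) (hA : 0 ≤ A) (hβ : 2 - 2 / (((d : ℝ) + 1) ^ ((3 * N + r + k) * n + 1) + 1) < β) :
    ∃ B C : ℝ, ∀ T : ℝ, 1 ≤ T → (Exceptional n d r α γ x a b A B T).Finite ∧
      ((Exceptional n d r α γ x a b A B T).ncard : ℝ) ≤ C * T ^ (2 * ((n : ℝ) - 1) + β) := by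
  have hind := Q23.AQ.comb_all (d := d) (fun k : Fin r => Q23.AQ.It.E ((k : ℕ) + 1)) (fun i t => Q23.AQ.It.E_an _ t)
    (fun a b hab => Q23.AQ.It.ind r d a b hab) α γ x hα hγ hx c hcα hcx a b hab hca h
  set U := Sum.elim (fun z : Fin N × Fin 3 => TH818.AP.KC (α z.1) (γ z.1) z.2)
    (Sum.elim (fun k : Fin r => Q23.AQ.It.E ((k : ℕ) + 1)) (TH659.AQ.lf x)) with hU
  have hcard : Fintype.card ((Fin N × Fin 3) ⊕ (Fin r ⊕ Fin k)) = 3 * N + r + k := by
    rw [Fintype.card_sum, Fintype.card_prod, Fintype.card_sum, Fintype.card_fin, Fintype.card_fin, Fintype.card_fin,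
      Fintype.card_fin]
    ring
  have han : ∀ p, AnalyticOnNhd ℝ (U p) (Icc a b) := by
    rintro (z | i | j) t ht
    · exact TH818.AP.kc_an _ _ ((h z.1).1.trans (hab.trans (h z.1).2)) z.2 t ((h z.1).1.trans_le ht.1)
        (lt_of_le_of_lt ht.2 (h z.1).2)
    · exact Q23.AQ.It.E_an _ t
    · exact TH659.AQ.lf_an x j (by linarith [hcx j, ht.1])
  obtain ⟨B, C, h0⟩ := TH659.AQ.polysR (n := n) (d := d) U a b hab han hind hn A β hA (by rw [hcard]; exact hβ)
  refine ⟨B, C, fun T hT => ?_⟩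
  have heq : ∀ q : Fin n → ℚ, values α γ x q = TH659.AQ.vR U q := by
    intro q
    funext z
    rcases z with _ | ⟨l, ⟨j, i⟩ | i | i⟩
    · rfl
    · have hne : γ j - α j ≠ 0 := by linarith [(h j).1, (h j).2]
      fin_cases i
      · rfl
      · rfl
      · show K (1 - (q l - α j) / (γ j - α j)) = TH818.AR.KK ((γ j - q l) / (γ j - α j))
        have : 1 - ((q l : ℝ) - α j) / (γ j - α j) = (γ j - q l) / (γ j - α j) := by
          field_simp
          ring
        rw [this]
        rfl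
    · exact iexp_eq _ _
    · rfl
  have heq2 : Exceptional n d r α γ x a b A B T = TH659.AQ.ExR (n := n) d U a b A B T := by
    unfold Exceptional TH659.AQ.ExR
    simp only [heq]
  rw [heq2]
  exact h0 T hT

end Pool.Agent.Results.MP_2cf66e_nt.ExponentialsOverPeriods
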