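import Mathlib
import Pool.Agent.Q29.EqRatPts
import Pool.Agent.Results.MP_2cf66e_nt.ExponentialsOverPeriods

/-!
# Uniform distribution of the multiples of `e ^ q` and of periods, for almost all rational numbers `q`

For a rational number `q` consider the numbers `π`, `e ^ q`, `e ^ (e ^ q)`, … and the periods `log (q + x_i)`, `K(s)`, `E(s)`, `K(1 - s)`
for `s = (q - α_j) / (γ_j - α_j)` (periods for rational `x_i`, `α_j`, `γ_j`). For `n`-tuples of rational numbers in an interval, with denominators at most `T`, with the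
exception of few tuples, the multiples of every vector of different nonconstant monomials in these numbers, of bounded
degree, by the integers up to `M`, by their powers and by the primes up to `M` in residue classes are jointly uniformly
distributed modulo one with a power saving, for all `M` between `T ^ B` and `T ^ E`, where `B` does not depend on `E`. If the
numbers satisfied a polynomial relation with small coefficients, this would not be the case. In particular for almost all `q` the number `e ^ q` is not a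
polynomial of bounded degree with small coefficients in these periods, and its multiples are distributed independently of those of
the periods.

The proof uses the bound for the number of the rational points with approximate polynomial relations (`ExponentialsOverPeriods`, by the
starting file `TH659/AQ`), an inverse theorem for the sums of Weyl and a form of the estimate of Vinogradov for the sums over
primes with a power saving (`H373R2/NB`, `W110/HV`).
-/

set_option autoImplicit false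

namespace Pool.Agent.Results.MP_2cf66e_nt.MultiplesAtRationals

open Finset Polynomial
open Pool.Agent.Results.MP_2cf66e_nt.ExponentialsOverPeriods (values K)

/-- The points `y n ∈ ℝ ^ s`, `n ∈ S`, are uniformly distributed modulo one with error `E` in the cubes of side `1 / q`,
`q ≤ Q`. -/
def Equi {s : ℕ} (S : Finset ℕ) (y : ℕ → Fin s → ℝ) (Q E : ℝ) : Prop :=
  ∀ q : ℕ, 1 ≤ q → (q : ℝ) ≤ Q → ∀ ρ : Fin s → ℤ, (∀ j, 0 ≤ ρ j ∧ ρ j < q) →
    |((S.filter fun n => ∀ j, (ρ j : ℝ) / q ≤ Int.fract (y n j) ∧ Int.fract (y n j) < (ρ j + 1) / q).card : ℝ) -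
      S.card / (q : ℝ) ^ s| ≤ E

/-- The multiples of the vector `x` are uniformly distributed modulo one at the scale `M`, with a power saving, along all
polynomials of degree `k ≤ K` (the points `x n ^ k + R(n)`, `0 ≤ n < M`, `R` a vector of real polynomials of degree less
than `k`), and along the primes in all residue classes modulo `d ≤ M ^ κ` (the points `x p + β`, `p ≤ M` prime,
`p ≡ r (mod d)`). -/
def Joint (κ : ℝ) (K M : ℕ) {s : ℕ} (x : Fin s → ℝ) : Prop :=
  (∀ k : ℕ, 1 ≤ k → k ≤ K → ∀ R : Fin s → ℝ[X], (∀ j, (R j).degree < k) →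
    Equi (range M) (fun n j => x j * (n : ℝ) ^ k + (R j).eval (n : ℝ)) ((M : ℝ) ^ κ) ((M : ℝ) ^ (1 - κ))) ∧
  (∀ d r : ℕ, 1 ≤ d → (d : ℝ) ≤ (M : ℝ) ^ κ → ∀ β : Fin s → ℝ,
    Equi ((range (M + 1)).filter fun p => p.Prime ∧ p ≡ r [MOD d]) (fun p j => x j * p + β j) ((M : ℝ) ^ κ)
      ((M : ℝ) ^ (1 - κ)))

theorem joint_iff (κ : ℝ) (K M : ℕ) {s : ℕ} (x : Fin s → ℝ) : Joint κ K M x ↔ Pool.Agent.Q29.Eqd.Joint κ K M x :=
  Iff.rfl

/-- The `n`-tuples of rational numbers in `[a, b]` with denominators at most `T` such that for some `M` between `T ^ B` and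
`T ^ E` the multiples of the vector of the monomials, with the exponents `f k`, in the numbers `values` are not jointly
uniformly distributed at the scale `M`. -/
def Bad {n m : ℕ} {ι : Type} [Fintype ι] (val : (Fin n → ℚ) → ι → ℝ) (lo hi : ℝ) (f : Fin m → ι → ℕ) (κ : ℝ) (K : ℕ)
    (B E T : ℝ) : Set (Fin n → ℚ) :=
  {q | (∀ j, lo ≤ q j ∧ (q j : ℝ) ≤ hi ∧ ((q j).den : ℝ) ≤ T) ∧ ∃ M : ℕ, T ^ B ≤ (M : ℝ) ∧ (M : ℝ) ≤ T ^ E ∧
    ¬ Joint κ K M (fun k => ∏ i, val q i ^ f k i)}

theorem result {N k : ℕ} (n d r : ℕ) (hn : 1 ≤ n) (α γ : Fin N → ℝ) (x : Fin k → ℝ) (hα : StrictAnti α)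
    (hγ : StrictMono γ) (hx : Function.Injective x) (c : ℝ) (hcα : ∀ j, c < α j)
    (hcx : ∀ i, 0 < c + x i) (a b : ℝ) (hab : a < b) (hca : c ≤ a) (h : ∀ j, α j < a ∧ b < γ j)
    (β : ℝ) (hβ : 2 - 2 / (((d : ℝ) + 1) ^ ((3 * N + r + k) * n + 1) + 1) < β) :
    ∃ B : ℝ, 1 ≤ B ∧ ∀ (m : ℕ) (f : Fin m → Option (Fin n × ((Fin N × Fin 3) ⊕ (Fin r ⊕ Fin k))) → ℕ), 1 ≤ m → Function.Injective f →
      (∀ k, f k ≠ 0) → (∀ k i, f k i ≤ d) → ∀ (K : ℕ) (E : ℝ), ∃ κ C : ℝ, 0 < κ ∧ ∀ T : ℝ, 1 ≤ T →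
        (Bad (values (r := r) α γ x (n := n)) a b f κ K B E T).Finite ∧
        ((Bad (values (r := r) α γ x (n := n)) a b f κ K B E T).ncard : ℝ) ≤ C * T ^ (2 * ((n : ℝ) - 1) + β) := by
  have hpow : 0 ≤ 2 * ((n : ℝ) - 1) + β := by
    have h1 : (1 : ℝ) ≤ n := by exact_mod_cast hn
    have h2 : 2 / (((d : ℝ) + 1) ^ ((3 * N + r + k) * n + 1) + 1) ≤ 2 := by
      rw [div_le_iff₀ (by positivity)]
      have : (0 : ℝ) ≤ ((d : ℝ) + 1) ^ ((3 * N + r + k) * n + 1) := by positivity
      linarith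
    linarith
  obtain ⟨U, hU⟩ : ∃ U : (Fin N × Fin 3) ⊕ (Fin r ⊕ Fin k) → ℝ → ℝ,
    U = Sum.elim (fun z : Fin N × Fin 3 => Pool.Agent.TH818.AP.KC (α z.1) (γ z.1) z.2)
      (Sum.elim (fun k : Fin r => Pool.Agent.Q23.AQ.It.E ((k : ℕ) + 1)) (Pool.Agent.TH659.AQ.lf x)) := ⟨_, rfl⟩
  obtain ⟨X, hX0⟩ := Pool.Agent.Q29.Eqd.vR_bound (n := n) U a b (by
    rw [hU]
    rintro (z | i | j) t ht
    · exact (Pool.Agent.TH818.AP.kc_an _ _ ((h z.1).1.trans (hab.trans (h z.1).2)) z.2 t ((h z.1).1.trans_le ht.1)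
        (lt_of_le_of_lt ht.2 (h z.1).2)).continuousAt.continuousWithinAt
    · exact (Pool.Agent.Q23.AQ.It.E_an _ t).continuousAt.continuousWithinAt
    · exact (Pool.Agent.TH659.AQ.lf_an x j (by linarith [hcx j, ht.1])).continuousAt.continuousWithinAt)
  have hX : ∀ q : Fin n → ℚ, (∀ j, a ≤ q j ∧ (q j : ℝ) ≤ b) → ∀ i, |values (r := r) α γ x q i| ≤ X := by
    intro q hq i
    have heq : values (r := r) α γ x q = Pool.Agent.TH659.AQ.vR U q := by
      rw [hU]
      funext z
      rcases z with _ | ⟨l, ⟨j, i⟩ | i | i⟩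
      · rfl
      · have hne : γ j - α j ≠ 0 := by linarith [(h j).1, (h j).2]
        fin_cases i
        · rfl
        · rfl
        · show K (1 - (q l - α j) / (γ j - α j)) = Pool.Agent.TH818.AR.KK ((γ j - q l) / (γ j - α j))
          have : 1 - ((q l : ℝ) - α j) / (γ j - α j) = (γ j - q l) / (γ j - α j) := by
            field_simp
            ring
          rw [this]
          rfl
      · exact Pool.Agent.Results.MP_2cf66e_nt.ExponentialsOverPeriods.iexp_eq _ _
      · rfl
    rw [heq]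
    exact hX0 q hq i
  obtain ⟨B₀, C₀, h⟩ := Pool.Agent.Results.MP_2cf66e_nt.ExponentialsOverPeriods.result n d r hn α γ x hα hγ hx c hcα hcx a b hab hca h 1 β
    zero_le_one hβ
  obtain ⟨B, hB, h2⟩ := Pool.Agent.Q29.Eqd.rat_joint (values (r := r) α γ x (n := n)) d a b X _ hX hpow ⟨B₀, C₀, fun T hT => h T hT⟩
  refine ⟨B, hB, fun m f hm hf hf0 hd K E => ?_⟩
  obtain ⟨κ, C, hκ, h3⟩ := h2 m f hm hf hf0 hd K E
  exact ⟨κ, C, hκ, fun T hT => h3 T hT⟩

end Pool.Agent.Results.MP_2cf66e_nt.MultiplesAtRationals
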