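import Mathlib
import Pool.Agent.Q47.AB.Rat
import Pool.Agent.Results.MP_2cf66e_nt.ExponentialsOverPeriods

/-!
# `e ^ q` and periods at rational points: multiples by the products of the elements of two arbitrary dense sets

For a rational number `q` consider the numbers `π`, `e ^ q`, `e ^ (e ^ q)`, … and the periods `log (q + x_i)`, `K(s)`, `E(s)`, `K(1 - s)`
for `s = (q - α_j) / (γ_j - α_j)` (periods for rational `x_i`, `α_j`, `γ_j`). For `n`-tuples of rational numbers in an interval, with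
denominators at most `T`, with the exception of few tuples, EVERY value `x` of a nonconstant integer polynomial of bounded degree at these
numbers has the following property at all the scales `M` between `T ^ B` and `T ^ E`: for arbitrary dense sets `A`, `B` of integers the
numbers `b x a ^ k c + R_c(a) + y_a`, `(a, c) ∈ A × B`, are uniformly distributed modulo one with a power saving. If the numbers satisfied a
polynomial relation with small coefficients, this would not be the case.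

The proof uses the bound for the number of the rational points with approximate polynomial relations (`ExponentialsOverPeriods`, by the
starting file `TH659/AQ`), a bilinear estimate and an inverse theorem for the sums of Weyl (`Q47/DG/EqdK`, `H373R2/NB`).
-/

set_option autoImplicit false

namespace Pool.Agent.Results.MP_2cf66e_nt.PairsFromDenseSets

open Finset Polynomial
open Pool.Agent.Results.MP_2cf66e_nt.ExponentialsOverPeriods (values K)

/-- Polynomials over two dense sets are uniformly distributed at the scale `M`, with a power saving: for all integers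
`b ≠ 0` with `|b| ≤ M ^ κ`, all degrees `1 ≤ k ≤ K`, all integers `H ≥ M ^ η`, ALL sets `A` of integers in `[0, M)` and `B` of
integers in `[0, H)` with `|A| |B| ≥ M ^ (1 - κ) H`, all real numbers `y_a`, all real polynomials `R_c` of degree less than
`k` and all `0 ≤ u ≤ v ≤ 1`, the number of the pairs `(a, c) ∈ A × B` with the fractional part of
`b x a ^ k c + R_c(a) + y_a` in `[u, v)` is `(v - u) |A| |B|`, up to `|A| |B| M ^ (-κ)`. -/
def PGood (K : ℕ) (η κ : ℝ) (M : ℕ) (x : ℝ) : Prop :=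
  ∀ b : ℤ, b ≠ 0 → |(b : ℝ)| ≤ (M : ℝ) ^ κ → ∀ k : ℕ, 1 ≤ k → k ≤ K → ∀ H : ℕ, (M : ℝ) ^ η ≤ H →
    ∀ A B : Finset ℕ, (∀ a ∈ A, a < M) → (∀ c ∈ B, c < H) → (M : ℝ) ^ (1 - κ) * H ≤ #A * #B →
    ∀ (y : ℕ → ℝ) (R : ℕ → ℝ[X]), (∀ c, (R c).degree < k) → ∀ u v : ℝ, 0 ≤ u → u ≤ v → v ≤ 1 →
      |(#{i ∈ A ×ˢ B | u ≤ Int.fract (b * x * i.1 ^ k * i.2 + (R i.2).eval (i.1 : ℝ) + y i.1) ∧
          Int.fract (b * x * i.1 ^ k * i.2 + (R i.2).eval (i.1 : ℝ) + y i.1) < v} : ℝ) -
        (v - u) * (#A * #B)| ≤ #A * #B * (M : ℝ) ^ (-κ)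

theorem pgood_iff (K : ℕ) (η κ : ℝ) (M : ℕ) (x : ℝ) : PGood K η κ M x ↔ Pool.Agent.Q47.DG.PGood K η κ M x := Iff.rfl

/-- The `n`-tuples `q` of rational numbers in `[lo, hi]` with denominators at most `T` for which there are a nonconstant
polynomial `P` with integer coefficients, of degree at most `d` in each variable, and an integer `M` between `T ^ B` and
`T ^ E` such that the coefficients of `P` are at most `M ^ κ` in absolute value and the value of `P` at the numbers `val q` does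
not have the property `PGood` at the scale `M`. -/
def Bad {n : ℕ} {ι : Type} (val : (Fin n → ℚ) → ι → ℝ) (lo hi : ℝ) (d K : ℕ) (η κ B E T : ℝ) : Set (Fin n → ℚ) :=
  {q | (∀ j, lo ≤ q j ∧ (q j : ℝ) ≤ hi ∧ ((q j).den : ℝ) ≤ T) ∧ ∃ P : MvPolynomial ι ℤ,
    (∀ c : ℤ, P ≠ MvPolynomial.C c) ∧ (∀ x, P.degreeOf x ≤ d) ∧ ∃ M : ℕ, T ^ B ≤ (M : ℝ) ∧ (M : ℝ) ≤ T ^ E ∧
    (∀ c, |((P.coeff c : ℤ) : ℝ)| ≤ (M : ℝ) ^ κ) ∧ ¬ PGood K η κ M (MvPolynomial.aeval (val q) P)}

/-- Let `α_1 > ⋯ > α_N > c`, `γ_1 < ⋯ < γ_N`, `x_1, …, x_k` distinct with `c + x_i > 0`, and `c ≤ a < b` with `α_1 < a`, `b < γ_1`.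
For `n ≥ 1`, `d`, `r` and `β > 2 - 2 / ((d + 1) ^ ((3 N + r + k) n + 1) + 1)` there is `B` such that for all `K`, `η > 0` and `E`
there are `κ > 0` and `C` such that for all `T ≥ 1` at most `C T ^ (2 (n - 1) + β)` of the `n`-tuples of rational numbers in
`[a, b]` with denominators at most `T` are bad. -/
theorem result {N k : ℕ} (n d r : ℕ) (hn : 1 ≤ n) (α γ : Fin N → ℝ) (x : Fin k → ℝ) (hα : StrictAnti α)
    (hγ : StrictMono γ) (hx : Function.Injective x) (c : ℝ) (hcα : ∀ j, c < α j)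
    (hcx : ∀ i, 0 < c + x i) (a b : ℝ) (hab : a < b) (hca : c ≤ a) (h : ∀ j, α j < a ∧ b < γ j)
    (β : ℝ) (hβ : 2 - 2 / (((d : ℝ) + 1) ^ ((3 * N + r + k) * n + 1) + 1) < β) :
    ∃ B : ℝ, 1 ≤ B ∧ ∀ (K : ℕ) (η : ℝ), 0 < η → ∀ E : ℝ, ∃ κ C : ℝ, 0 < κ ∧ ∀ T : ℝ, 1 ≤ T →
        (Bad (values (r := r) α γ x (n := n)) a b d K η κ B E T).Finite ∧
        ((Bad (values (r := r) α γ x (n := n)) a b d K η κ B E T).ncard : ℝ) ≤ C * T ^ (2 * ((n : ℝ) - 1) + β) := by
  have hpow : 0 ≤ 2 * ((n : ℝ) - 1) + β := by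
    have h1 : (1 : ℝ) ≤ n := by exact_mod_cast hn
    have h2 : 2 / (((d : ℝ) + 1) ^ ((3 * N + r + k) * n + 1) + 1) ≤ 2 := by
      rw [div_le_iff₀ (by positivity)]
      have : (0 : ℝ) ≤ ((d : ℝ) + 1) ^ ((3 * N + r + k) * n + 1) := by positivity
      linarith
    linarith
  obtain ⟨U, hU⟩ : ∃ U : (Fin N × Fin 3) ⊕ (Fin r ⊕ Fin k) → ℝ → ℝ,
    U = Sum.elim (fun z : Fin N × Fin 3 => Pool.Agent.TH818.AP.KC (α z.1) (γ z.1) z.2)
      (Sum.elim (fun k : Fin r => Pool.Agent.Q23.AQ.It.E ((k : ℕ) + 1)) (Pool.Agent.TH659.AQ.lf x)) := ⟨_, rfl⟩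
  obtain ⟨X, hX0⟩ := Pool.Agent.Q29.Eqd.vR_bound (n := n) U a b (by
    rw [hU]
    rintro (z | i | j) t ht
    · exact (Pool.Agent.TH818.AP.kc_an _ _ ((h z.1).1.trans (hab.trans (h z.1).2)) z.2 t ((h z.1).1.trans_le ht.1)
        (lt_of_le_of_lt ht.2 (h z.1).2)).continuousAt.continuousWithinAt
    · exact (Pool.Agent.Q23.AQ.It.E_an _ t).continuousAt.continuousWithinAt
    · exact (Pool.Agent.TH659.AQ.lf_an x j (by linarith [hcx j, ht.1])).continuousAt.continuousWithinAt)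
  have hX : ∀ q : Fin n → ℚ, (∀ j, a ≤ q j ∧ (q j : ℝ) ≤ b) → ∀ i, |values (r := r) α γ x q i| ≤ X := by
    intro q hq i
    have heq : values (r := r) α γ x q = Pool.Agent.TH659.AQ.vR U q := by
      rw [hU]
      funext z
      rcases z with _ | ⟨l, ⟨j, i⟩ | i | i⟩
      · rfl
      · have hne : γ j - α j ≠ 0 := by linarith [(h j).1, (h j).2]
        fin_cases i
        · rfl
        · rfl
        · show K (1 - (q l - α j) / (γ j - α j)) = Pool.Agent.TH818.AR.KK ((γ j - q l) / (γ j - α j))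
          have : 1 - ((q l : ℝ) - α j) / (γ j - α j) = (γ j - q l) / (γ j - α j) := by
            field_simp
            ring
          rw [this]
          rfl
      · exact Pool.Agent.Results.MP_2cf66e_nt.ExponentialsOverPeriods.iexp_eq _ _
      · rfl
    rw [heq]
    exact hX0 q hq i
  obtain ⟨B₀, C₀, h⟩ := Pool.Agent.Results.MP_2cf66e_nt.ExponentialsOverPeriods.result n d r hn α γ x hα hγ hx c hcα hcx a b hab hca h 1 β
    zero_le_one hβ
  obtain ⟨B, hB, h2⟩ := Pool.Agent.Q47.AB.rat_poly (values (r := r) α γ x (n := n)) d a b X _ hX hpow ⟨B₀, C₀, fun T hT => h T hT⟩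
  refine ⟨B, hB, fun K η hη E => ?_⟩
  obtain ⟨κ, C, hκ, h3⟩ := h2 (PGood K η) (Pool.Agent.Q47.DG.Abs.engine_prod K η hη) E
  exact ⟨κ, C, hκ, fun T hT => h3 T hT⟩

end Pool.Agent.Results.MP_2cf66e_nt.PairsFromDenseSets
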